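import Pool.Agent.H24.Rtmp

set_option autoImplicit false

namespace Pool.Agent.Results.MP_a7edd4_lc.CoNPHard
open Pool.Agent.H11.PT Pool.Agent.H24.Bz Pool.Agent.H24.Rtmp

theorem result :
    (∀ L : List Bool → Prop, InNP L → ∃ f : List Bool → List (ℤ × ℤ) × ℤ,
      PolyTime id bits f ∧ ∀ x, ¬ L x ↔ RTMP (f x)) ∧
    (InNP RTMP → ∀ L : List Bool → Prop, InNP L → InNP fun x => ¬ L x) := by
  refine ⟨fun L hL => ?_, fun h L hL => ?_⟩ <;> obtain ⟨f, hf, e⟩ := hard L hL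
  · exact ⟨f, hf.polyTime_raw, fun x => by rw [(e x).2, not_not]⟩
  · exact Pool.Agent.Lead.NPc.InNP.red h f hf fun x => by rw [(e x).2, not_not]

end Pool.Agent.Results.MP_a7edd4_lc.CoNPHard
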